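import Mathlib

set_option autoImplicit false

namespace Pool.Agent.Results.MP_a65cb7_co.DixonProduct

open scoped Topology

/-- The Euclidean plane. -/
abbrev E2 : Type := EuclideanSpace ℝ (Fin 2)

/-- Two realizations `p`, `q` of the graph `G` are equivalent: all edges have equal lengths. -/
def Equivalent {V : Type} (G : SimpleGraph V) (p q : V → E2) : Prop :=
  ∀ i j, G.Adj i j → dist (p i) (p j) = dist (q i) (q j)

/-- Two realizations are congruent: all pairs of vertices have equal distances. -/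
def Congruent {V : Type} (p q : V → E2) : Prop :=
  ∀ i j, dist (p i) (p j) = dist (q i) (q j)

/-- The framework `(G, p)` is rigid: `p` has a neighbourhood in which every realization that is
equivalent to `p` is congruent to `p`. -/
def Rigid {V : Type} (G : SimpleGraph V) (p : V → E2) : Prop :=
  ∃ U ∈ 𝓝 p, ∀ q ∈ U, Equivalent G p q → Congruent p q

/-- No vertex has all its neighbours on one line. -/
def NonCollinearNeighbourhoods {V : Type} (G : SimpleGraph V) (p : V → E2) : Prop :=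
  ∀ v, ¬ Collinear ℝ (p '' G.neighborSet v)

/-- The assertion asked about in Q1. -/
def Question : Prop :=
  ∀ c : ℝ, 0 < c → ∃ n₀ : ℕ, ∀ n : ℕ, n₀ ≤ n → ∀ (G : SimpleGraph (Fin n)) (p : Fin n → E2),
    c * (n : ℝ) ^ ((7 : ℝ) / 6) ≤ (G.edgeSet.ncard : ℝ) → NonCollinearNeighbourhoods G p →
      ∃ G' : G.Subgraph, 4 ≤ G'.verts.ncard ∧ Rigid G'.coe (fun v => p v)

/-! ### The Dixon frameworks and their product -/

/-- the first coordinate of the Dixon framework, motion parameter `t` -/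
noncomputable def ax {m : ℕ} (t : ℝ) (x : Bool × Fin m) : ℝ :=
  if x.1 then Real.sqrt (((x.2 : ℕ) + 1 : ℝ) ^ 2 + t) else 0

/-- the second coordinate of the Dixon framework, motion parameter `t` -/
noncomputable def ay {m : ℕ} (t : ℝ) (x : Bool × Fin m) : ℝ :=
  if x.1 then 0 else Real.sqrt (((x.2 : ℕ) + 1 : ℝ) ^ 2 - t)

/-- the vertex set of the product -/
abbrev W (m : ℕ) : Type := (Bool × Fin m) × (Bool × Fin m)

/-- the complete bipartite graph `K_{m,m}` -/
def K (m : ℕ) : SimpleGraph (Bool × Fin m) := (⊤ : SimpleGraph Bool).comap Prod.fst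

open scoped SimpleGraph in
/-- the Cartesian product of two copies of the complete bipartite graph `K_{m,m}` -/
def H (m : ℕ) : SimpleGraph (W m) := SimpleGraph.boxProd (K m) (K m)

theorem H_adj {m : ℕ} {a b : W m} :
    (H m).Adj a b ↔ (a.2 = b.2 ∧ a.1.1 ≠ b.1.1) ∨ (a.1 = b.1 ∧ a.2.1 ≠ b.2.1) := by
  unfold H
  rw [SimpleGraph.boxProd_adj]
  simp only [K, SimpleGraph.comap_adj, SimpleGraph.top_adj]
  tauto

/-- the realizations of the product: the first factor is moved with parameter `s` and rotated by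
`θ`, the second factor is moved with parameter `t`, rotated by 45 degrees and scaled -/
noncomputable def P (m : ℕ) (θ s t : ℝ) (a : W m) : E2 :=
  !₂[Real.cos θ * ax s a.1 - Real.sin θ * ay s a.1 + ((m : ℝ) + 1) * (ax t a.2 - ay t a.2),
    Real.sin θ * ax s a.1 + Real.cos θ * ay s a.1 + ((m : ℝ) + 1) * (ax t a.2 + ay t a.2)]

theorem dist_sq (u v : E2) : dist u v ^ 2 = (u 0 - v 0) ^ 2 + (u 1 - v 1) ^ 2 := by
  rw [EuclideanSpace.dist_eq, Real.sq_sqrt (Finset.sum_nonneg fun i _ => sq_nonneg _)]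
  simp [Fin.sum_univ_two, Real.dist_eq, sq_abs]

theorem dist_eq_iff (u v u' v' : E2) : dist u v = dist u' v' ↔ dist u v ^ 2 = dist u' v' ^ 2 :=
  (pow_left_inj₀ dist_nonneg dist_nonneg two_ne_zero).symm

theorem sq_ax {m : ℕ} {t : ℝ} (ht : |t| ≤ 1) {x : Bool × Fin m} (hx : x.1 = true) :
    ax t x ^ 2 = ((x.2 : ℕ) + 1 : ℝ) ^ 2 + t := by
  rw [ax, if_pos hx, Real.sq_sqrt]
  have h1 := (abs_le.1 ht).1
  have h2 : (0 : ℝ) ≤ (x.2 : ℕ) := Nat.cast_nonneg _
  nlinarith

theorem sq_ay {m : ℕ} {t : ℝ} (ht : |t| ≤ 1) {x : Bool × Fin m} (hx : x.1 = false) :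
    ay t x ^ 2 = ((x.2 : ℕ) + 1 : ℝ) ^ 2 - t := by
  rw [ay, if_neg (by simp [hx]), Real.sq_sqrt]
  have h1 := (abs_le.1 ht).2
  have h2 : (0 : ℝ) ≤ (x.2 : ℕ) := Nat.cast_nonneg _
  nlinarith

theorem ax_false {m : ℕ} (t : ℝ) {x : Bool × Fin m} (hx : x.1 = false) : ax t x = 0 := by
  rw [ax, if_neg (by simp [hx])]

theorem ay_true {m : ℕ} (t : ℝ) {x : Bool × Fin m} (hx : x.1 = true) : ay t x = 0 := by
  rw [ay, if_pos hx]

theorem ax_nonneg {m : ℕ} (t : ℝ) (x : Bool × Fin m) : 0 ≤ ax t x := by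
  unfold ax; split_ifs
  · exact Real.sqrt_nonneg _
  · exact le_rfl

theorem ay_nonneg {m : ℕ} (t : ℝ) (x : Bool × Fin m) : 0 ≤ ay t x := by
  unfold ay; split_ifs
  · exact le_rfl
  · exact Real.sqrt_nonneg _

theorem ax_zero {m : ℕ} {x : Bool × Fin m} (hx : x.1 = true) : ax 0 x = (x.2 : ℕ) + 1 := by
  rw [ax, if_pos hx, add_zero, Real.sqrt_sq (by positivity)]

theorem ay_zero {m : ℕ} {x : Bool × Fin m} (hx : x.1 = false) : ay 0 x = (x.2 : ℕ) + 1 := by
  rw [ay, if_neg (by simp [hx]), sub_zero, Real.sqrt_sq (by positivity)]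

/-- the Dixon motion preserves the lengths of the edges of `K_{m,m}` -/
theorem dixon {m : ℕ} {t : ℝ} (ht : |t| ≤ 1) (x y : Bool × Fin m) (h : x.1 ≠ y.1) :
    (ax t x - ax t y) ^ 2 + (ay t x - ay t y) ^ 2 =
      ((x.2 : ℕ) + 1 : ℝ) ^ 2 + ((y.2 : ℕ) + 1 : ℝ) ^ 2 := by
  cases hx : x.1
  · have hy : y.1 = true := by
      cases hy : y.1
      · exact absurd (hx.trans hy.symm) h
      · rfl
    rw [ax_false t hx, ay_true t hy]
    have h1 := sq_ax ht hy
    have h2 := sq_ay ht hx
    linear_combination h1 + h2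
  · have hy : y.1 = false := by
      cases hy : y.1
      · rfl
      · exact absurd (hx.trans hy.symm) h
    rw [ax_false t hy, ay_true t hx]
    have h1 := sq_ax ht hx
    have h2 := sq_ay ht hy
    linear_combination h1 + h2

theorem dist_P (m : ℕ) (θ s t : ℝ) (a b : W m) :
    dist (P m θ s t a) (P m θ s t b) ^ 2 =
      (ax s a.1 - ax s b.1) ^ 2 + (ay s a.1 - ay s b.1) ^ 2 +
      2 * ((m : ℝ) + 1) ^ 2 * ((ax t a.2 - ax t b.2) ^ 2 + (ay t a.2 - ay t b.2) ^ 2) +
      2 * ((m : ℝ) + 1) * (Real.cos θ *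
        ((ax s a.1 - ax s b.1) * ((ax t a.2 - ax t b.2) - (ay t a.2 - ay t b.2)) +
          (ay s a.1 - ay s b.1) * ((ax t a.2 - ax t b.2) + (ay t a.2 - ay t b.2))) +
        Real.sin θ *
        ((ax s a.1 - ax s b.1) * ((ax t a.2 - ax t b.2) + (ay t a.2 - ay t b.2)) -
          (ay s a.1 - ay s b.1) * ((ax t a.2 - ax t b.2) - (ay t a.2 - ay t b.2)))) := by
  rw [dist_sq]
  simp only [P, Matrix.cons_val_zero, Matrix.cons_val_one, PiLp.toLp_apply]
  have h := Real.sin_sq_add_cos_sq θ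
  linear_combination ((ax s a.1 - ax s b.1) ^ 2 + (ay s a.1 - ay s b.1) ^ 2) * h

/-- all these realizations are equivalent -/
theorem P_equiv (m : ℕ) {θ s t : ℝ} (hs : |s| ≤ 1) (ht : |t| ≤ 1) (a b : W m)
    (h : (H m).Adj a b) : dist (P m 0 0 0 a) (P m 0 0 0 b) = dist (P m θ s t a) (P m θ s t b) := by
  rw [dist_eq_iff, dist_P, dist_P]
  have h0 : |(0 : ℝ)| ≤ 1 := by simp
  rcases H_adj.1 h with ⟨h1, h2⟩ | ⟨h1, h2⟩
  · rw [h1]
    have e0 := dixon h0 a.1 b.1 h2
    have e1 := dixon hs a.1 b.1 h2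
    linear_combination e0 - e1
  · rw [h1]
    have e0 := dixon h0 a.2 b.2 h2
    have e1 := dixon ht a.2 b.2 h2
    linear_combination 2 * ((m : ℝ) + 1) ^ 2 * (e0 - e1)

theorem ax_cont {m : ℕ} (x : Bool × Fin m) : Continuous fun t => ax t x := by
  unfold ax
  split_ifs
  · fun_prop
  · exact continuous_const

theorem ay_cont {m : ℕ} (x : Bool × Fin m) : Continuous fun t => ay t x := by
  unfold ay
  split_ifs
  · exact continuous_const
  · fun_prop

theorem P_cont (m : ℕ) (a : W m) {f g h : ℝ → ℝ} (hf : Continuous f) (hg : Continuous g)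
    (hh : Continuous h) : Continuous fun τ => P m (f τ) (g τ) (h τ) a := by
  unfold P
  refine (PiLp.continuous_toLp 2 _).comp ?_
  have h1 := (ax_cont a.1).comp hg
  have h2 := (ay_cont a.1).comp hg
  have h3 := (ax_cont a.2).comp hh
  have h4 := (ay_cont a.2).comp hh
  have h5 := Real.continuous_cos.comp hf
  have h6 := Real.continuous_sin.comp hf
  refine continuous_pi fun i => ?_
  fin_cases i
  · exact ((h5.mul h1).sub (h6.mul h2)).add (continuous_const.mul (h3.sub h4))
  · exact ((h6.mul h1).add (h5.mul h2)).add (continuous_const.mul (h3.add h4))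

/-- a framework with a one-parameter family of equivalent realizations that changes the distance
of some two vertices is not rigid -/
theorem not_rigid_of_family {U : Type} (K : SimpleGraph U) (g : ℝ → U → E2) (hg : Continuous g)
    (heq : ∀ τ : ℝ, |τ| ≤ 1 → Equivalent K (g 0) (g τ)) (i j : U)
    (hne : ∀ ε : ℝ, 0 < ε → ∃ τ : ℝ, |τ| < ε ∧ dist (g 0 i) (g 0 j) ≠ dist (g τ i) (g τ j)) :
    ¬ Rigid K (g 0) := by
  rintro ⟨N, hN, h⟩
  have h1 := hg.continuousAt (x := 0) hN
  obtain ⟨ε, hε, h2⟩ := Metric.mem_nhds_iff.1 h1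
  obtain ⟨τ, hτ, h3⟩ := hne (min ε 1) (lt_min hε one_pos)
  refine h3 (h (g τ) (h2 ?_) (heq τ (hτ.le.trans (min_le_right _ _))) i j)
  rw [Metric.mem_ball, Real.dist_eq, sub_zero]
  exact hτ.trans_le (min_le_left _ _)

/-- points on the same side change their distance under the Dixon motion -/
theorem dixon_ne {m : ℕ} {t : ℝ} (ht : |t| ≤ 1) (ht0 : 0 < t) (x y : Bool × Fin m) (h : x ≠ y)
    (h' : x.1 = y.1) :
    (ax 0 x - ax 0 y) ^ 2 + (ay 0 x - ay 0 y) ^ 2 ≠
      (ax t x - ax t y) ^ 2 + (ay t x - ay t y) ^ 2 := by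
  have h2 : ((x.2 : ℕ) : ℝ) ≠ (y.2 : ℕ) := by
    intro h3
    exact h (Prod.ext h' (Fin.ext (Nat.cast_injective h3)))
  cases hx : x.1
  · have hy : y.1 = false := h' ▸ hx
    rw [ax_false 0 hx, ax_false 0 hy, ax_false t hx, ax_false t hy, ay_zero hx, ay_zero hy]
    have e1 := sq_ay ht hx
    have e2 := sq_ay ht hy
    have p1 := ay_nonneg t x
    have p2 := ay_nonneg t y
    generalize ay t x = A at *
    generalize ay t y = B at *
    have q1 : (0 : ℝ) ≤ (x.2 : ℕ) := Nat.cast_nonneg _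
    have q2 : (0 : ℝ) ≤ (y.2 : ℕ) := Nat.cast_nonneg _
    generalize ((x.2 : ℕ) : ℝ) = a at *
    generalize ((y.2 : ℕ) : ℝ) = b at *
    intro h3
    have h4 : A < a + 1 := lt_of_pow_lt_pow_left₀ 2 (by linarith) (by linarith)
    have h5 : B < b + 1 := lt_of_pow_lt_pow_left₀ 2 (by linarith) (by linarith)
    have h6 : (a - b) ^ 2 * ((A + B) ^ 2 - (a + b + 2) ^ 2) = 0 := by
      have e3 : (A - B) * (A + B) = (a - b) * (a + b + 2) := by linear_combination e1 - e2
      have e4 : (A - B) ^ 2 = (a - b) ^ 2 := by linear_combination -h3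
      have e5 : ((A - B) * (A + B)) ^ 2 = ((a - b) * (a + b + 2)) ^ 2 := by rw [e3]
      linear_combination e5 - (A + B) ^ 2 * e4
    rcases mul_eq_zero.1 h6 with h7 | h7
    · exact h2 (sub_eq_zero.1 (pow_eq_zero_iff two_ne_zero |>.1 h7))
    · nlinarith
  · have hy : y.1 = true := h' ▸ hx
    rw [ay_true 0 hx, ay_true 0 hy, ay_true t hx, ay_true t hy, ax_zero hx, ax_zero hy]
    have e1 := sq_ax ht hx
    have e2 := sq_ax ht hy
    have p1 := ax_nonneg t x
    have p2 := ax_nonneg t y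
    generalize ax t x = A at *
    generalize ax t y = B at *
    have q1 : (0 : ℝ) ≤ (x.2 : ℕ) := Nat.cast_nonneg _
    have q2 : (0 : ℝ) ≤ (y.2 : ℕ) := Nat.cast_nonneg _
    generalize ((x.2 : ℕ) : ℝ) = a at *
    generalize ((y.2 : ℕ) : ℝ) = b at *
    intro h3
    have h4 : a + 1 < A := lt_of_pow_lt_pow_left₀ 2 (by linarith) (by linarith)
    have h5 : b + 1 < B := lt_of_pow_lt_pow_left₀ 2 (by linarith) (by linarith)
    have h6 : (a - b) ^ 2 * ((A + B) ^ 2 - (a + b + 2) ^ 2) = 0 := by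
      have e3 : (A - B) * (A + B) = (a - b) * (a + b + 2) := by linear_combination e1 - e2
      have e4 : (A - B) ^ 2 = (a - b) ^ 2 := by linear_combination -h3
      have e5 : ((A - B) * (A + B)) ^ 2 = ((a - b) * (a + b + 2)) ^ 2 := by rw [e3]
      linear_combination e5 - (A + B) ^ 2 * e4
    rcases mul_eq_zero.1 h6 with h7 | h7
    · exact h2 (sub_eq_zero.1 (pow_eq_zero_iff two_ne_zero |>.1 h7))
    · nlinarith

theorem dixon_inj {m : ℕ} (x y : Bool × Fin m)
    (h : (ax 0 x - ax 0 y) ^ 2 + (ay 0 x - ay 0 y) ^ 2 = 0) : x = y := by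
  have h0 : |(0 : ℝ)| ≤ 1 := by simp
  by_cases hxy : x.1 = y.1
  · by_contra hne
    have h1 : ax 0 x - ax 0 y = 0 := by nlinarith [sq_nonneg (ax 0 x - ax 0 y), sq_nonneg (ay 0 x - ay 0 y)]
    have h2 : ay 0 x - ay 0 y = 0 := by nlinarith [sq_nonneg (ax 0 x - ax 0 y), sq_nonneg (ay 0 x - ay 0 y)]
    apply hne
    refine Prod.ext hxy (Fin.ext ?_)
    cases hx : x.1
    · have hy : y.1 = false := hxy ▸ hx
      rw [ay_zero hx, ay_zero hy] at h2
      have : ((x.2 : ℕ) : ℝ) = (y.2 : ℕ) := by linarith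
      exact_mod_cast this
    · have hy : y.1 = true := hxy ▸ hx
      rw [ax_zero hx, ax_zero hy] at h1
      have : ((x.2 : ℕ) : ℝ) = (y.2 : ℕ) := by linarith
      exact_mod_cast this
  · rw [dixon h0 x y hxy] at h
    have : (0 : ℝ) < ((x.2 : ℕ) + 1 : ℝ) ^ 2 := by positivity
    have : (0 : ℝ) < ((y.2 : ℕ) + 1 : ℝ) ^ 2 := by positivity
    linarith

/-- pigeonhole -/
theorem same_side {m : ℕ} (x y z : Bool × Fin m) : x.1 = y.1 ∨ x.1 = z.1 ∨ y.1 = z.1 := by
  cases x.1 <;> cases y.1 <;> cases z.1 <;> simp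

/-- every set of at least three vertices of the product gives a framework that is not rigid -/
theorem not_rigid {m : ℕ} {U : Type} (K : SimpleGraph U) (f : U → W m)
    (hf : Function.Injective f) (hadj : ∀ a b, K.Adj a b → (H m).Adj (f a) (f b))
    (a b c : U) (hab : a ≠ b) (hac : a ≠ c) (hbc : b ≠ c) :
    ¬ Rigid K (fun u => P m 0 0 0 (f u)) := by
  have hm : (0 : ℝ) < m := by
    have : 0 < m := Nat.pos_of_ne_zero (by rintro rfl; exact (f a).1.2.elim0)
    exact_mod_cast this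
  by_cases hcase : ∃ u v : U, (f u).1 ≠ (f v).1 ∧ (f u).2 ≠ (f v).2
  · -- rotate the first factor
    obtain ⟨u, v, h1, h2⟩ := hcase
    refine not_rigid_of_family K (fun τ w => P m τ 0 0 (f w)) ?_ ?_ u v ?_
    · exact continuous_pi fun w => P_cont m (f w) continuous_id continuous_const continuous_const
    · intro τ _ x y hxy
      exact P_equiv m (by simp) (by simp) _ _ (hadj x y hxy)
    · intro ε hε
      by_contra hcon
      push Not at hcon
      set τ := min (ε / 2) 1 with hτ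
      have hτ0 : 0 < τ := lt_min (by linarith) one_pos
      have hτ1 : τ < ε := (min_le_left _ _).trans_lt (by linarith)
      have hτ2 : τ ≤ 1 := min_le_right _ _
      have k1 := hcon τ (by rw [abs_of_pos hτ0]; exact hτ1)
      have k2 := hcon (-τ) (by rw [abs_neg, abs_of_pos hτ0]; exact hτ1)
      rw [dist_eq_iff, dist_P, dist_P] at k1 k2
      rw [Real.cos_neg, Real.sin_neg] at k2
      rw [Real.cos_zero, Real.sin_zero] at k1 k2
      have hsin : 0 < Real.sin τ :=
        Real.sin_pos_of_pos_of_lt_pi hτ0 (by linarith [Real.pi_gt_three])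
      have hcos : Real.cos τ < 1 := by
        have := Real.sin_sq_add_cos_sq τ
        nlinarith [Real.cos_le_one τ]
      have n1 := dixon_inj (f u).1 (f v).1
      have n2 := dixon_inj (f u).2 (f v).2
      generalize ax 0 (f u).1 - ax 0 (f v).1 = p at *
      generalize ay 0 (f u).1 - ay 0 (f v).1 = q at *
      generalize ax 0 (f u).2 - ax 0 (f v).2 = r at *
      generalize ay 0 (f u).2 - ay 0 (f v).2 = s at *
      have z1 : p * (r - s) + q * (r + s) = 0 := by
        have : 4 * ((m : ℝ) + 1) * ((1 - Real.cos τ) * (p * (r - s) + q * (r + s))) = 0 := by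
          linear_combination k1 + k2
        have h5 := (mul_eq_zero.1 this).resolve_left (by positivity)
        exact (mul_eq_zero.1 h5).resolve_left (by linarith)
      have z2 : p * (r + s) - q * (r - s) = 0 := by
        have : 4 * ((m : ℝ) + 1) * (Real.sin τ * (p * (r + s) - q * (r - s))) = 0 := by
          linear_combination k2 - k1
        have h5 := (mul_eq_zero.1 this).resolve_left (by positivity)
        exact (mul_eq_zero.1 h5).resolve_left hsin.ne'
      have z3 : (p ^ 2 + q ^ 2) * (2 * (r ^ 2 + s ^ 2)) = 0 := by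
        linear_combination (p * (r - s) + q * (r + s)) * z1 + (p * (r + s) - q * (r - s)) * z2
      rcases mul_eq_zero.1 z3 with z4 | z4
      · exact h1 (n1 z4)
      · exact h2 (n2 (by linarith))
  · push Not at hcase
    -- all vertices lie in one fibre
    have key : (∀ u v, (f u).1 = (f v).1) ∨ (∀ u v, (f u).2 = (f v).2) := by
      by_contra hcon
      push Not at hcon
      obtain ⟨⟨u, v, huv⟩, ⟨w, z, hwz⟩⟩ := hcon
      have e1 := hcase u v huv
      -- some vertex differs from `u` or `v` in the second coordinate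
      have e2 : ∀ w', (f w').2 = (f u).2 := by
        intro w'
        by_contra hw
        have e3 : (f w').1 = (f u).1 := by
          by_contra h3
          exact hw (hcase w' u h3)
        have e4 : (f w').1 = (f v).1 := by
          by_contra h3
          exact hw ((hcase w' v h3).trans e1.symm)
        exact huv (e3.symm.trans e4)
      exact hwz ((e2 w).trans (e2 z).symm)
    rcases key with h1 | h2
    · -- move the second factor
      have ex : ∃ u v, (f u).2 ≠ (f v).2 ∧ (f u).2.1 = (f v).2.1 := by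
        have hne : ∀ u v, u ≠ v → (f u).2 ≠ (f v).2 := fun u v huv h =>
          huv (hf (Prod.ext (h1 u v) h))
        rcases same_side (f a).2 (f b).2 (f c).2 with h | h | h
        · exact ⟨a, b, hne _ _ hab, h⟩
        · exact ⟨a, c, hne _ _ hac, h⟩
        · exact ⟨b, c, hne _ _ hbc, h⟩
      obtain ⟨u, v, huv, hs⟩ := ex
      refine not_rigid_of_family K (fun τ w => P m 0 0 τ (f w)) ?_ ?_ u v ?_
      · exact continuous_pi fun w => P_cont m (f w) continuous_const continuous_const continuous_id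
      · intro τ hτ x y hxy
        exact P_equiv m (by simp) hτ _ _ (hadj x y hxy)
      · intro ε hε
        set τ := min (ε / 2) 1 with hτ
        have hτ0 : 0 < τ := lt_min (by linarith) one_pos
        have hτ1 : τ < ε := (min_le_left _ _).trans_lt (by linarith)
        have hτ2 : τ ≤ 1 := min_le_right _ _
        refine ⟨τ, by rw [abs_of_pos hτ0]; exact hτ1, ?_⟩
        rw [Ne, dist_eq_iff, dist_P, dist_P, h1 u v]
        intro hcon
        refine dixon_ne (by rw [abs_of_pos hτ0]; exact hτ2) hτ0 (f u).2 (f v).2 huv hs ?_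
        have h5 : 2 * ((m : ℝ) + 1) ^ 2 *
          (((ax 0 (f u).2 - ax 0 (f v).2) ^ 2 + (ay 0 (f u).2 - ay 0 (f v).2) ^ 2) -
          ((ax τ (f u).2 - ax τ (f v).2) ^ 2 + (ay τ (f u).2 - ay τ (f v).2) ^ 2)) = 0 := by
          linear_combination hcon
        have h6 := (mul_eq_zero.1 h5).resolve_left (by positivity)
        linarith
    · -- move the first factor
      have ex : ∃ u v, (f u).1 ≠ (f v).1 ∧ (f u).1.1 = (f v).1.1 := by
        have hne : ∀ u v, u ≠ v → (f u).1 ≠ (f v).1 := fun u v huv h =>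
          huv (hf (Prod.ext h (h2 u v)))
        rcases same_side (f a).1 (f b).1 (f c).1 with h | h | h
        · exact ⟨a, b, hne _ _ hab, h⟩
        · exact ⟨a, c, hne _ _ hac, h⟩
        · exact ⟨b, c, hne _ _ hbc, h⟩
      obtain ⟨u, v, huv, hs⟩ := ex
      refine not_rigid_of_family K (fun τ w => P m 0 τ 0 (f w)) ?_ ?_ u v ?_
      · exact continuous_pi fun w => P_cont m (f w) continuous_const continuous_id continuous_const
      · intro τ hτ x y hxy
        exact P_equiv m hτ (by simp) _ _ (hadj x y hxy)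
      · intro ε hε
        set τ := min (ε / 2) 1 with hτ
        have hτ0 : 0 < τ := lt_min (by linarith) one_pos
        have hτ1 : τ < ε := (min_le_left _ _).trans_lt (by linarith)
        have hτ2 : τ ≤ 1 := min_le_right _ _
        refine ⟨τ, by rw [abs_of_pos hτ0]; exact hτ1, ?_⟩
        rw [Ne, dist_eq_iff, dist_P, dist_P, h2 u v]
        intro hcon
        refine dixon_ne (by rw [abs_of_pos hτ0]; exact hτ2) hτ0 (f u).1 (f v).1 huv hs ?_
        linear_combination hcon

/-! ### Injectivity, neighbourhoods, number of edges -/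

/-- the first coordinate as a natural number -/
def nx {m : ℕ} (x : Bool × Fin m) : ℕ := if x.1 then (x.2 : ℕ) + 1 else 0

/-- the second coordinate as a natural number -/
def ny {m : ℕ} (x : Bool × Fin m) : ℕ := if x.1 then 0 else (x.2 : ℕ) + 1

theorem ax_nx {m : ℕ} (x : Bool × Fin m) : ax 0 x = (nx x : ℝ) := by
  unfold nx
  cases hx : x.1
  · rw [ax_false 0 hx]; simp
  · rw [ax_zero hx]; simp

theorem ay_ny {m : ℕ} (x : Bool × Fin m) : ay 0 x = (ny x : ℝ) := by
  unfold ny
  cases hx : x.1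
  · rw [ay_zero hx]; simp
  · rw [ay_true 0 hx]; simp

theorem nx_le {m : ℕ} (x : Bool × Fin m) : nx x ≤ m := by
  unfold nx; split_ifs
  · exact x.2.2
  · exact Nat.zero_le _

theorem ny_le {m : ℕ} (x : Bool × Fin m) : ny x ≤ m := by
  unfold ny; split_ifs
  · exact Nat.zero_le _
  · exact x.2.2

theorem int_aux {m a b : ℕ} {k : ℤ} (ha : a ≤ m) (hb : b ≤ m)
    (h : (a : ℤ) - b = ((m : ℤ) + 1) * k) : k = 0 := by
  by_contra hk
  rcases lt_or_gt_of_ne hk with h1 | h1
  · have : k ≤ -1 := by omega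
    nlinarith
  · have : 1 ≤ k := by omega
    nlinarith

theorem P_inj (m : ℕ) : Function.Injective (P m 0 0 0) := by
  intro a b h
  have h0 := congrArg (fun v : E2 => v 0) h
  have h1 := congrArg (fun v : E2 => v 1) h
  simp only [P, Matrix.cons_val_zero, Matrix.cons_val_one, Real.cos_zero, Real.sin_zero,
    ax_nx, ay_ny] at h0 h1
  have e0 : ((nx a.1 : ℤ) : ℤ) - nx b.1 =
      ((m : ℤ) + 1) * (((nx b.2 : ℤ) - ny b.2) - ((nx a.2 : ℤ) - ny a.2)) := by
    have : ((nx a.1 : ℝ)) - nx b.1 =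
      ((m : ℝ) + 1) * (((nx b.2 : ℝ) - ny b.2) - ((nx a.2 : ℝ) - ny a.2)) := by
      linear_combination h0
    exact_mod_cast this
  have e1 : ((ny a.1 : ℤ) : ℤ) - ny b.1 =
      ((m : ℤ) + 1) * (((nx b.2 : ℤ) + ny b.2) - ((nx a.2 : ℤ) + ny a.2)) := by
    have : ((ny a.1 : ℝ)) - ny b.1 =
      ((m : ℝ) + 1) * (((nx b.2 : ℝ) + ny b.2) - ((nx a.2 : ℝ) + ny a.2)) := by
      linear_combination h1
    exact_mod_cast this
  have k0 := int_aux (nx_le _) (nx_le _) e0
  have k1 := int_aux (ny_le _) (ny_le _) e1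
  rw [k0, mul_zero] at e0
  rw [k1, mul_zero] at e1
  refine Prod.ext (dixon_inj _ _ ?_) (dixon_inj _ _ ?_)
  · rw [ax_nx, ax_nx, ay_ny, ay_ny]
    have f0 : (nx a.1 : ℝ) - nx b.1 = 0 := by exact_mod_cast e0
    have f1 : (ny a.1 : ℝ) - ny b.1 = 0 := by exact_mod_cast e1
    rw [f0, f1]; norm_num
  · rw [ax_nx, ax_nx, ay_ny, ay_ny]
    have e2 : (nx a.2 : ℤ) - nx b.2 = 0 := by omega
    have e3 : (ny a.2 : ℤ) - ny b.2 = 0 := by omega
    have f0 : (nx a.2 : ℝ) - nx b.2 = 0 := by exact_mod_cast e2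
    have f1 : (ny a.2 : ℝ) - ny b.2 = 0 := by exact_mod_cast e3
    rw [f0, f1]; norm_num

theorem cross_of_collinear {s : Set E2} (hs : Collinear ℝ s) {a b c d : E2} (ha : a ∈ s)
    (hb : b ∈ s) (hc : c ∈ s) (hd : d ∈ s) :
    (b 0 - a 0) * (d 1 - c 1) - (b 1 - a 1) * (d 0 - c 0) = 0 := by
  obtain ⟨p₀, v, h⟩ := (collinear_iff_exists_forall_eq_smul_vadd s).1 hs
  obtain ⟨ra, rfl⟩ := h a ha
  obtain ⟨rb, rfl⟩ := h b hb
  obtain ⟨rc, rfl⟩ := h c hc
  obtain ⟨rd, rfl⟩ := h d hd
  simp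
  ring

theorem nonCollinear {m : ℕ} (hm : 2 ≤ m) (v : W m) :
    ¬ Collinear ℝ (P m 0 0 0 '' (H m).neighborSet v) := by
  intro hcol
  obtain ⟨x, y⟩ := v
  let i0 : Fin m := ⟨0, by omega⟩
  let i1 : Fin m := ⟨1, by omega⟩
  have hA : ∀ i : Fin m, P m 0 0 0 ((!x.1, i), y) ∈ P m 0 0 0 '' (H m).neighborSet (x, y) := by
    intro i
    refine ⟨_, ?_, rfl⟩
    rw [SimpleGraph.mem_neighborSet, H_adj]
    left
    exact ⟨rfl, by simp⟩
  have hB : ∀ i : Fin m, P m 0 0 0 (x, (!y.1, i)) ∈ P m 0 0 0 '' (H m).neighborSet (x, y) := by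
    intro i
    refine ⟨_, ?_, rfl⟩
    rw [SimpleGraph.mem_neighborSet, H_adj]
    right
    exact ⟨rfl, by simp⟩
  have key := cross_of_collinear hcol (hA i0) (hA i1) (hB i0) (hB i1)
  simp only [P, Matrix.cons_val_zero, Matrix.cons_val_one, Real.cos_zero, Real.sin_zero,
    ax_nx, ay_ny, nx, ny] at key
  have hmpos : (0 : ℝ) < (m : ℝ) + 1 := by positivity
  cases hx : x.1 <;> cases hy : y.1 <;> simp [hx, hy, i0, i1] at key <;>
    rcases key with key | key <;> linarith

theorem K_degree {m : ℕ} (x : Bool × Fin m) [Fintype ((K m).neighborSet x)] :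
    (K m).degree x = m := by
  have : (K m).neighborFinset x = ({!x.1} : Finset Bool) ×ˢ (Finset.univ : Finset (Fin m)) := by
    ext y
    rw [SimpleGraph.mem_neighborFinset]
    simp only [K, SimpleGraph.comap_adj, SimpleGraph.top_adj, Finset.mem_product,
      Finset.mem_singleton, Finset.mem_univ, and_true]
    cases x.1 <;> cases y.1 <;> simp
  rw [← SimpleGraph.card_neighborFinset_eq_degree, this]
  simp

theorem H_card (m : ℕ) : (H m).edgeSet.ncard = 4 * m ^ 3 := by
  classical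
  have h1 := (H m).sum_degrees_eq_twice_card_edges
  have h2 : ∀ v, (H m).degree v = 2 * m := by
    intro v
    have : (H m).degree v = (K m).degree v.1 + (K m).degree v.2 := by
      unfold H
      convert SimpleGraph.degree_boxProd v
    rw [this, K_degree, K_degree]
    ring
  rw [Finset.sum_congr rfl fun v _ => h2 v] at h1
  simp only [Finset.sum_const, Finset.card_univ, Fintype.card_prod, Fintype.card_bool,
    Fintype.card_fin, smul_eq_mul] at h1
  rw [Set.ncard_eq_toFinset_card', SimpleGraph.edgeFinset] at *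
  have h3 : 2 * m * (2 * m) * (2 * m) = 2 * (4 * m ^ 3) := by ring
  rw [h3] at h1
  omega

/-- For every `m ≥ 2` and `n = 4 m²` there are a graph on `n` vertices with exactly `n^{3/2} / 2`
edges and an injective realization with non-collinear neighbourhoods such that no subgraph on
at least three vertices is rigid. -/
theorem strong (m : ℕ) (hm : 2 ≤ m) :
    ∃ (G : SimpleGraph (Fin (4 * m ^ 2))) (p : Fin (4 * m ^ 2) → E2),
      G.edgeSet.ncard = 4 * m ^ 3 ∧ Function.Injective p ∧ NonCollinearNeighbourhoods G p ∧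
        ∀ G' : G.Subgraph, 3 ≤ G'.verts.ncard → ¬ Rigid G'.coe (fun v => p v) := by
  classical
  have hcard : Fintype.card (W m) = 4 * m ^ 2 := by
    simp only [Fintype.card_prod, Fintype.card_bool, Fintype.card_fin]; ring
  let e : Fin (4 * m ^ 2) ≃ W m := (Fintype.equivFinOfCardEq hcard).symm
  refine ⟨(H m).comap e, P m 0 0 0 ∘ e, ?_, (P_inj m).comp e.injective, ?_, ?_⟩
  · rw [← H_card m]
    have hiso : ((H m).comap e).edgeSet ≃ (H m).edgeSet := (SimpleGraph.Iso.comap e (H m)).mapEdgeSet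
    rw [← Nat.card_coe_set_eq, ← Nat.card_coe_set_eq]
    exact Nat.card_congr hiso
  · intro v hcol
    refine nonCollinear hm (e v) ?_
    convert hcol using 1
    ext z
    constructor
    · rintro ⟨w, hw, rfl⟩
      refine ⟨e.symm w, ?_, by simp⟩
      rw [SimpleGraph.mem_neighborSet, SimpleGraph.comap_adj, Equiv.apply_symm_apply]
      exact hw
    · rintro ⟨w, hw, rfl⟩
      exact ⟨e w, hw, rfl⟩
  · intro G' hG'
    obtain ⟨t, ht, ht3⟩ := Set.exists_subset_card_eq hG'
    obtain ⟨a, b, c, hab, hac, hbc, rfl⟩ := Set.ncard_eq_three.1 ht3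
    refine not_rigid (m := m) G'.coe (fun v => e v)
      (fun x y h => Subtype.ext (e.injective h)) ?_ ⟨a, ht (by simp)⟩ ⟨b, ht (by simp)⟩
      ⟨c, ht (by simp)⟩ ?_ ?_ ?_
    · intro x y hxy
      have := G'.adj_sub hxy
      exact this
    · exact fun h => hab (congrArg Subtype.val h)
    · exact fun h => hac (congrArg Subtype.val h)
    · exact fun h => hbc (congrArg Subtype.val h)

/-- Q1 has a negative answer. Moreover the number of edges in the counterexamples is `n^{3/2} / 2`: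
for every `n₀` there are `n ≥ n₀`, a graph `G` on `n` vertices with `n ^ (3/2) / 2` edges, and an
injective realization of `G` with non-collinear neighbourhoods, such that no subgraph of `G` on at
least three vertices is rigid. -/
theorem result :
    ¬ Question ∧
      ∀ n₀ : ℕ, ∃ n : ℕ, n₀ ≤ n ∧ ∃ (G : SimpleGraph (Fin n)) (p : Fin n → E2),
        (G.edgeSet.ncard : ℝ) = (n : ℝ) ^ ((3 : ℝ) / 2) / 2 ∧ Function.Injective p ∧
        NonCollinearNeighbourhoods G p ∧
        ∀ G' : G.Subgraph, 3 ≤ G'.verts.ncard → ¬ Rigid G'.coe (fun v => p v) := by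
  have main : ∀ n₀ : ℕ, ∃ n : ℕ, n₀ ≤ n ∧ ∃ (G : SimpleGraph (Fin n)) (p : Fin n → E2),
        (G.edgeSet.ncard : ℝ) = (n : ℝ) ^ ((3 : ℝ) / 2) / 2 ∧ Function.Injective p ∧
        NonCollinearNeighbourhoods G p ∧
        ∀ G' : G.Subgraph, 3 ≤ G'.verts.ncard → ¬ Rigid G'.coe (fun v => p v) := by
    intro n₀
    obtain ⟨G, p, h1, h2, h3, h4⟩ := strong (n₀ + 2) (by omega)
    refine ⟨4 * (n₀ + 2) ^ 2, by nlinarith, G, p, ?_, h2, h3, h4⟩
    rw [h1]
    have e1 : ((4 * (n₀ + 2) ^ 2 : ℕ) : ℝ) = (2 * ((n₀ : ℝ) + 2)) ^ (2 : ℝ) := by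
      rw [Real.rpow_two]; push_cast; ring
    rw [e1, ← Real.rpow_mul (by positivity)]
    norm_num
    ring
  refine ⟨fun hQ => ?_, main⟩
  obtain ⟨n₀, hn₀⟩ := hQ (1 / 2) (by norm_num)
  obtain ⟨n, hn, G, p, h1, _, h3, h4⟩ := main (n₀ + 1)
  have hn1 : (1 : ℝ) ≤ n := by
    have : 1 ≤ n := by omega
    exact_mod_cast this
  obtain ⟨G', h5, h6⟩ := hn₀ n (by omega) G p (by
    rw [h1]
    have := Real.rpow_le_rpow_of_exponent_le hn1 (show (7 : ℝ) / 6 ≤ 3 / 2 by norm_num)
    linarith) h3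
  exact h4 G' (by omega) h6

end Pool.Agent.Results.MP_a65cb7_co.DixonProduct
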